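import Mathlib

set_option autoImplicit false

/-!
Two lemmas on groups used for the left translations `L (x \ c x)` (helper24, after helper98).
-/

namespace Pool.Agent.H24.SL

variable {M : Type*} [Group M]

/-- `j = 1, 2` -/
theorem comm_of_two {w v : M} (h : w⁻¹ * v * (w⁻¹ * v) = (w * w)⁻¹ * (v * v)) : w * v = v * w := by
  have h1 : v * w⁻¹ = w⁻¹ * v := by
    calc v * w⁻¹ = w * (w⁻¹ * v * (w⁻¹ * v)) * v⁻¹ := by group
      _ = w * ((w * w)⁻¹ * (v * v)) * v⁻¹ := by rw [h]
      _ = w⁻¹ * v := by group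
  calc w * v = w * (v * w⁻¹) * w := by group
    _ = w * (w⁻¹ * v) * w := by rw [h1]
    _ = v * w := by group

/-- the key step `k = 1` -/
theorem eq_of_rel {w D D' : M} {n : ℕ} (hn : Odd n) (hw : w ^ n = 1) (hD : D * D = 1)
    (hD' : D' * D' = 1) (h1 : w * (D * w * D) = (D * w * D) * w)
    (h1' : w * (D' * w * D') = (D' * w * D') * w)
    (h2 : w * D' * w⁻¹ * D * (w⁻¹ * D' * w * D) = 1)
    (h3 : (w * D' * w⁻¹ * D) ^ n = 1) : D' = D := by
  have hDi : D⁻¹ = D := inv_eq_of_mul_eq_one_left hD
  have hDi' : D'⁻¹ = D' := inv_eq_of_mul_eq_one_left hD'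
  -- `D'` commutes with `w D w`
  have h4 : D' * (w * D * w) = (w * D * w) * D' := by
    have h5 : w⁻¹ * D' * w * D = D * w * D' * w⁻¹ := by
      have h6 : w⁻¹ * D' * w * D = (w * D' * w⁻¹ * D)⁻¹ := (inv_eq_of_mul_eq_one_right h2).symm
      rw [h6]
      simp only [mul_inv_rev, hDi, hDi', inv_inv, mul_assoc]
    calc D' * (w * D * w) = w * (w⁻¹ * D' * w * D) * w := by group
      _ = w * (D * w * D' * w⁻¹) * w := by rw [h5]
      _ = (w * D * w) * D' := by group
  -- `b = w^D`
  obtain ⟨b, hb⟩ : ∃ b, b = D * w * D := ⟨_, rfl⟩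
  obtain ⟨c, hc⟩ : ∃ c, c = D' * w * D' := ⟨_, rfl⟩
  rw [← hb] at h1
  rw [← hc] at h1'
  have hwb : Commute w b := h1
  have hwc : Commute w c := h1'
  have hbn : b ^ n = 1 := by
    have h5 : b = D * w * D⁻¹ := by rw [hDi, hb]
    rw [h5, conj_pow, hw, mul_one, mul_inv_cancel]
  have hcn : c ^ n = 1 := by
    have h5 : c = D' * w * D'⁻¹ := by rw [hDi', hc]
    rw [h5, conj_pow, hw, mul_one, mul_inv_cancel]
  have hDb : D * b = w * D := by
    rw [hb]
    calc D * (D * w * D) = (D * D) * w * D := by group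
      _ = w * D := by rw [hD, one_mul]
  have hbD : b * D = D * w := by
    rw [hb]
    calc D * w * D * D = D * w * (D * D) := by group
      _ = D * w := by rw [hD, mul_one]
  have hwDw : w * D * w = (w * b) * D := by
    calc w * D * w = w * (D * w) := by group
      _ = w * (b * D) := by rw [hbD]
      _ = (w * b) * D := by group
  have hyD : Commute (w * b) D := by
    show w * b * D = D * (w * b)
    calc w * b * D = w * (b * D) := by group
      _ = w * D * w := by rw [hbD]; group
      _ = D * b * w := by rw [hDb]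
      _ = D * (b * w) := by group
      _ = D * (w * b) := by rw [h1]
  have hyn : (w * b) ^ n = 1 := by rw [hwb.mul_pow, hw, hbn, one_mul]
  have hDn : D ^ n = D := by
    obtain ⟨k, rfl⟩ := hn
    rw [pow_succ, pow_mul, pow_two, hD, one_pow, one_mul]
  have hC : Commute D' D := by
    have h5 : Commute D' ((w * b) * D) := by
      rw [← hwDw]; exact h4
    have h6 : ((w * b) * D) ^ n = D := by rw [hyD.mul_pow, hyn, hDn, one_mul]
    rw [← h6]
    exact h5.pow_right n
  have hD'y : Commute D' (w * b) := by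
    have h5 : Commute D' ((w * b) * D) := by
      rw [← hwDw]; exact h4
    have h6 : w * b = ((w * b) * D) * D := by rw [mul_assoc, hD, mul_one]
    rw [h6]
    exact h5.mul_right hC
  -- `t = D' D`
  obtain ⟨t, ht⟩ : ∃ t, t = D' * D := ⟨_, rfl⟩
  have ht' : t = D * D' := by rw [ht]; exact hC.eq
  have htt : t * t = 1 := by
    calc t * t = (D' * D) * (D * D') := by rw [← ht, ← ht']
      _ = D' * (D * D) * D' := by group
      _ = 1 := by rw [hD, mul_one, hD']
  obtain ⟨d, hd⟩ : ∃ d, d = t * w * t := ⟨_, rfl⟩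
  -- conjugation by `D` and by `D'`
  have e1 : D' * b * D' = d := by
    rw [hd, hb]
    calc D' * (D * w * D) * D' = (D' * D) * w * (D * D') := by group
      _ = t * w * t := by rw [← ht, ← ht']
  have e2 : D * c * D = d := by
    rw [hd, hc]
    calc D * (D' * w * D') * D = (D * D') * w * (D' * D) := by group
      _ = t * w * t := by rw [← ht, ← ht']
  have hcd : c * d = w * b := by
    have h5 : D' * (w * b) * D' = w * b := by
      rw [hD'y.eq, mul_assoc, hD', mul_one]
    calc c * d = (D' * w * D') * (D' * b * D') := by rw [← hc, e1]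
      _ = D' * w * (D' * D') * b * D' := by group
      _ = D' * (w * b) * D' := by rw [hD']; group
      _ = w * b := h5
  have hde : d = c⁻¹ * (w * b) := by rw [← hcd]; group
  have hwd : Commute w d := by
    rw [hde]
    exact (hwc.inv_right).mul_right ((Commute.refl w).mul_right hwb)
  have conjD : ∀ a b' : M, Commute a b' → Commute (D * a * D) (D * b' * D) := by
    intro a b' hab
    show D * a * D * (D * b' * D) = D * b' * D * (D * a * D)
    calc D * a * D * (D * b' * D) = D * a * (D * D) * b' * D := by group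
      _ = D * (a * b') * D := by rw [hD]; group
      _ = D * (b' * a) * D := by rw [hab.eq]
      _ = D * b' * (D * D) * a * D := by rw [hD]; group
      _ = D * b' * D * (D * a * D) := by group
  have conjD' : ∀ a b' : M, Commute a b' → Commute (D' * a * D') (D' * b' * D') := by
    intro a b' hab
    show D' * a * D' * (D' * b' * D') = D' * b' * D' * (D' * a * D')
    calc D' * a * D' * (D' * b' * D') = D' * a * (D' * D') * b' * D' := by group
      _ = D' * (a * b') * D' := by rw [hD']; group
      _ = D' * (b' * a) * D' := by rw [hab.eq]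
      _ = D' * b' * (D' * D') * a * D' := by rw [hD']; group
      _ = D' * b' * D' * (D' * a * D') := by group
  have e3 : D * d * D = c := by
    rw [← e2]
    calc D * (D * c * D) * D = (D * D) * c * (D * D) := by group
      _ = c := by rw [hD, one_mul, mul_one]
  have hbc : Commute b c := by
    have h5 := conjD w d hwd
    rw [← hb, e3] at h5
    exact h5
  have hbd : Commute b d := by
    have h5 := conjD w c hwc
    rw [← hb, e2] at h5
    exact h5
  have hcd' : Commute c d := by
    have h5 := conjD' w b hwb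
    rw [← hc, e1] at h5
    exact h5
  have htct : t * c * t = b := by
    rw [hc]
    calc t * (D' * w * D') * t = (D * D') * (D' * w * D') * (D' * D) := by rw [← ht, ← ht']
      _ = D * (D' * D') * w * (D' * D') * D := by group
      _ = D * w * D := by rw [hD', mul_one, mul_one]
      _ = b := hb.symm
  have hti : t⁻¹ = t := inv_eq_of_mul_eq_one_left htt
  have hdn : d ^ n = 1 := by
    have h5 : d = t * w * t⁻¹ := by rw [hti, hd]
    rw [h5, conj_pow, hw, mul_one, mul_inv_cancel]
  -- the element of odd order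
  have hy0 : w * D' * w⁻¹ * D = w * c⁻¹ * t := by
    have h5 : c⁻¹ = D' * w⁻¹ * D' := by
      rw [hc]
      simp only [mul_inv_rev, hDi', mul_assoc]
    rw [h5, ht]
    calc w * D' * w⁻¹ * D = w * D' * w⁻¹ * 1 * D := by group
      _ = w * D' * w⁻¹ * (D' * D') * D := by rw [hD']
      _ = w * (D' * w⁻¹ * D') * (D' * D) := by group
  rw [hy0] at h3
  obtain ⟨g, hg⟩ : ∃ g, g = w * c⁻¹ * (d * b⁻¹) := ⟨_, rfl⟩
  have htd : t * w * t = d := hd.symm
  have hsq : (w * c⁻¹ * t) ^ 2 = g := by
    have h5 : t * c⁻¹ * t = b⁻¹ := by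
      rw [← htct]
      simp only [mul_inv_rev, hti, mul_assoc]
    rw [hg, pow_two, ← h5, ← htd]
    calc w * c⁻¹ * t * (w * c⁻¹ * t) = w * c⁻¹ * (t * w * 1 * (c⁻¹ * t)) := by group
      _ = w * c⁻¹ * (t * w * (t * t) * (c⁻¹ * t)) := by rw [htt]
      _ = w * c⁻¹ * (t * w * t * (t * c⁻¹ * t)) := by group
  -- all of `w, b, c, d` commute
  have cg_w : Commute w g := by
    rw [hg]
    exact ((Commute.refl w).mul_right hwc.inv_right).mul_right (hwd.mul_right hwb.inv_right)
  have cg_c : Commute c g := by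
    rw [hg]
    exact (hwc.symm.mul_right (Commute.refl c).inv_right).mul_right
      (hcd'.mul_right hbc.symm.inv_right)
  have hgn : g ^ n = 1 := by
    have p1 : (w * c⁻¹) ^ n = 1 := by
      rw [hwc.inv_right.mul_pow, hw, inv_pow, hcn, inv_one, mul_one]
    have p2 : (d * b⁻¹) ^ n = 1 := by
      rw [(hbd.symm.inv_right).mul_pow, hdn, inv_pow, hbn, inv_one, mul_one]
    have p3 : Commute (w * c⁻¹) (d * b⁻¹) := by
      apply Commute.mul_left
      · exact hwd.mul_right hwb.inv_right
      · exact (hcd'.mul_right hbc.symm.inv_right).inv_left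
    rw [hg, p3.mul_pow, p1, p2, one_mul]
  obtain ⟨k, hk⟩ := hn
  have h6 : g ^ k * (w * c⁻¹) * t = 1 := by
    have h7 : (w * c⁻¹ * t) ^ n = g ^ k * (w * c⁻¹ * t) := by
      rw [hk, pow_succ, pow_mul, hsq]
    rw [h7] at h3
    rw [← h3]; group
  have h8 : t = (g ^ k * (w * c⁻¹))⁻¹ := eq_inv_of_mul_eq_one_right h6
  have h9 : t ^ n = 1 := by
    have p4 : Commute (g ^ k) (w * c⁻¹) := by
      apply Commute.pow_left
      exact (cg_w.symm).mul_right cg_c.symm.inv_right
    have p5 : (g ^ k * (w * c⁻¹)) ^ n = 1 := by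
      rw [p4.mul_pow, ← pow_mul, mul_comm k n, pow_mul, hgn, one_pow, one_mul,
        hwc.inv_right.mul_pow, hw, inv_pow, hcn, inv_one, mul_one]
    rw [h8, inv_pow, p5, inv_one]
  have h10 : t = 1 := by
    rw [hk, pow_succ, pow_mul, pow_two, htt, one_pow, one_mul] at h9
    exact h9
  rw [ht] at h10
  have h11 : D' = D⁻¹ := eq_inv_of_mul_eq_one_left h10
  rw [h11, hDi]

end Pool.Agent.H24.SL
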