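import Pool.Agent.H4.NS.Key
import Pool.Agent.H24.SL.Pure

set_option autoImplicit false

/-!
Left and right translations by the point `s = x \ (c x)`, where `c` is an inner mapping of odd order
inverted by `D x` (helper98's (0)-(3) in Lean).
-/

namespace ALoop

open Equiv Pool.Agent.H24.SL

variable {Q : Type*} {G : Subgroup (Perm Q)} {L : Q → Perm Q} {J : Perm Q} {e : Q}

namespace AL

/-- (0): the first form, with `k` -/
theorem m1a (h : AL G L J e) {x : Q} (hJx : J x = x) {c : Perm Q} (hc : c ∈ Inn G e) {n : ℕ}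
    (hn : Odd n) (hcn : c ^ n = 1) (hzc : D L J x * c * D L J x = c⁻¹) {c' : Perm Q}
    (hc' : c' = (L x)⁻¹ * c * L x) :
    ∃ k ∈ Inn G e, k * c = c * k ∧ k * c' = c' * k ∧ L (c' e) = c' * c⁻¹ * k ∧
      L (J (c' e)) = c'⁻¹ * c * k := by
  have hLxx := h.LxLx hJx
  have hcJ : c * J = J * c := h.comJ c hc.1 hc.2
  have hLG := h.memL x
  have hLie : (L x)⁻¹ e = x := by rw [Perm.inv_eq_iff_eq]; exact hLxx.symm
  have hDD := h.D_sq x
  have hJJ := h.JJ1
  obtain ⟨k1, k2, k3⟩ := h.key_comm hJx hc hn hcn hzc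
  rw [← hc'] at k1 k2 k3
  have hrG : c' ∈ G := by
    rw [hc']; exact G.mul_mem (G.mul_mem (G.inv_mem hLG) hc.1) hLG
  have hrn : c' ^ n = 1 := by
    have h1 : c' ^ n = (L x)⁻¹ * c ^ n * L x := by
      have h2 := conj_pow (i := n) (a := (L x)⁻¹) (b := c)
      rw [inv_inv] at h2
      rw [hc']
      exact h2
    rw [h1, hcn, mul_one, inv_mul_cancel]
  have hrx : c' x = x := (h.D_cent hrG x).1 k1
  obtain ⟨y, hy⟩ : ∃ y, y = c' e := ⟨_, rfl⟩
  rw [← hy]
  obtain ⟨hkG, hke⟩ := h.fix_part hrG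
  rw [← hy] at hkG hke
  obtain ⟨κ, hκ⟩ : ∃ κ, κ = (L y)⁻¹ * c' := ⟨_, rfl⟩
  rw [← hκ] at hkG hke
  have hκJ : κ * J = J * κ := h.comJ κ hkG hke
  have hLy : L y = c' * κ⁻¹ := by rw [hκ]; group
  have hκie : κ⁻¹ e = e := by
    rw [Perm.inv_eq_iff_eq]; exact hke.symm
  -- `c'` commutes with `κ`
  have hkiJ : J * κ⁻¹ * J = κ⁻¹ := by
    have h1 : J * κ * J = κ := by rw [← hκJ, mul_assoc, hJJ, mul_one]
    have h2 : (J * κ * J)⁻¹ = J * κ⁻¹ * J := h.Jmulinv κ
    rw [← h2, h1]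
  have c3 : c' * κ⁻¹ = κ⁻¹ * c' := by
    have h1 : J * L y * J = c'⁻¹ * κ⁻¹ := by
      rw [hLy, h.Jmul, k2, hkiJ]
    have h2 := h.comLR y
    rw [h1, hLy] at h2
    apply comm_of_sq hn hrn
    calc c' * c' * κ⁻¹ = c' * (c' * κ⁻¹ * (c'⁻¹ * κ⁻¹)) * κ * c' := by group
      _ = c' * (c'⁻¹ * κ⁻¹ * (c' * κ⁻¹)) * κ * c' := by rw [h2]
      _ = κ⁻¹ * (c' * c') := by group
  -- `L y x = c⁻¹ x`
  have hDJ : D L J x * J = J * D L J x := h.Dx_J hJx
  have hzG : D L J x * J ∈ G := by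
    have h1 := h.D_mul_mem x e
    rw [h.D_e] at h1
    exact h1
  have hze : (D L J x * J) e = e := by
    apply h.centJ hzG
    rw [mul_assoc, hJJ, mul_one, hDJ, ← mul_assoc, hJJ, one_mul]
  have hDxx := h.D_self x
  have hJy : J y = c'⁻¹ e := by
    rw [hy, ← k2]
    show J (c' e) = J (c' (J e))
    rw [h.Je]
  have hDi : (D L J x)⁻¹ = D L J x := inv_eq_of_mul_eq_one_left hDD
  have hzi : (D L J x * J)⁻¹ = D L J x * J := by
    rw [mul_inv_rev, hDi, h.Jinv, hDJ]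
  have hzc'z : (D L J x * J) * c' * (D L J x * J)⁻¹ = c'⁻¹ := by
    rw [hzi]
    calc D L J x * J * c' * (D L J x * J) = D L J x * (J * c' * (D L J x * J)) := by group
      _ = D L J x * (J * c' * (J * D L J x)) := by rw [hDJ]
      _ = D L J x * (J * c' * J) * D L J x := by group
      _ = D L J x * c'⁻¹ * D L J x := by rw [k2]
      _ = D L J x * (c'⁻¹ * (D L J x * c') * c'⁻¹) := by group
      _ = D L J x * (c'⁻¹ * (c' * D L J x) * c'⁻¹) := by rw [← k1]
      _ = D L J x * D L J x * c'⁻¹ := by group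
      _ = c'⁻¹ := by rw [hDD, one_mul]
  have hzcz : (D L J x * J) * c * (D L J x * J)⁻¹ = c⁻¹ := by
    rw [hzi, ← hzc]
    calc D L J x * J * c * (D L J x * J) = D L J x * (J * c) * (D L J x * J) := by group
      _ = D L J x * (c * J) * (J * D L J x) := by rw [hcJ, hDJ]
      _ = D L J x * c * (J * J) * D L J x := by group
      _ = D L J x * c * D L J x := by rw [hJJ, mul_one]
  have hzy : (D L J x * J) y = J y := by
    have h1 : (D L J x * J) * c' = c'⁻¹ * (D L J x * J) := by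
      rw [← hzc'z]; group
    calc (D L J x * J) y = ((D L J x * J) * c') e := by rw [hy]; rfl
      _ = (c'⁻¹ * (D L J x * J)) e := by rw [h1]
      _ = c'⁻¹ ((D L J x * J) e) := rfl
      _ = J y := by rw [hze, hJy]
  have hzJy : (D L J x * J) (J y) = y := by
    rw [← hzy]
    have h1 : (D L J x * J) * (D L J x * J) = 1 := by
      calc (D L J x * J) * (D L J x * J) = (D L J x * J)⁻¹ * (D L J x * J) := by rw [hzi]
        _ = 1 := inv_mul_cancel _
    have h2 := congrArg (fun g : Perm Q => g y) h1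
    exact h2
  have hzx : (D L J x * J) x = x := by
    show D L J x (J x) = x
    rw [hJx, hDxx]
  have hLxy : L x y = c x := by
    rw [hy, hc']
    show L x ((L x)⁻¹ (c (L x e))) = c x
    rw [apply_inv', h.Le]
  have hJcx : J (c x) = c x := by
    show (J * c) x = c x
    rw [← hcJ]
    show c (J x) = c x
    rw [hJx]
  have c5 : L y x = c⁻¹ x := by
    have h1 : L (J y) x = c x := by
      have h2 := h.aaip x y
      rw [hLxy, hJx, hJcx] at h2
      exact h2.symm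
    have h4 := h.aut hzG hze (J y) x
    rw [hzJy, hzx, h1] at h4
    rw [← h4]
    have h5 : (D L J x * J) * c = c⁻¹ * (D L J x * J) := by rw [← hzcz]; group
    calc (D L J x * J) (c x) = ((D L J x * J) * c) x := rfl
      _ = (c⁻¹ * (D L J x * J)) x := by rw [h5]
      _ = c⁻¹ ((D L J x * J) x) := rfl
      _ = c⁻¹ x := by rw [hzx]
  -- `k = c κ⁻¹` fixes `x`
  have hk_mem : c * κ⁻¹ ∈ G := G.mul_mem hc.1 (G.inv_mem hkG)
  have hk_e : (c * κ⁻¹) e = e := by
    show c (κ⁻¹ e) = e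
    rw [hκie]
    exact hc.2
  have hκ' : κ⁻¹ = c'⁻¹ * L y := by rw [hLy]; group
  have hk_x : (c * κ⁻¹) x = x := by
    have h1 : κ⁻¹ x = c⁻¹ x := by
      calc κ⁻¹ x = c'⁻¹ (L y x) := by rw [hκ']; rfl
        _ = c'⁻¹ (c⁻¹ x) := by rw [c5]
        _ = (c'⁻¹ * c⁻¹) x := rfl
        _ = (c⁻¹ * c'⁻¹) x := by
            have h2 : c'⁻¹ * c⁻¹ = c⁻¹ * c'⁻¹ := by
              rw [← mul_inv_rev, ← mul_inv_rev, k3]
            rw [h2]
        _ = c⁻¹ (c'⁻¹ x) := rfl
        _ = c⁻¹ x := by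
            have h3 : c'⁻¹ x = x := by rw [Perm.inv_eq_iff_eq]; exact hrx.symm
            rw [h3]
    show c (κ⁻¹ x) = x
    rw [h1]
    exact c.apply_symm_apply x
  have hkL := h.comL hk_mem hk_e hk_x
  have hkc' : (c * κ⁻¹) * c' = c' * (c * κ⁻¹) := by
    calc (c * κ⁻¹) * c' = c * (κ⁻¹ * c') := by group
      _ = c * (c' * κ⁻¹) := by rw [c3]
      _ = (c' * c) * κ⁻¹ := by rw [k3]; group
      _ = c' * (c * κ⁻¹) := by group
  have hcc : c = L x * c' * (L x)⁻¹ := by rw [hc']; group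
  have hkLi : (c * κ⁻¹) * (L x)⁻¹ = (L x)⁻¹ * (c * κ⁻¹) := by
    calc (c * κ⁻¹) * (L x)⁻¹ = (L x)⁻¹ * (L x * (c * κ⁻¹)) * (L x)⁻¹ := by group
      _ = (L x)⁻¹ * ((c * κ⁻¹) * L x) * (L x)⁻¹ := by rw [hkL]
      _ = (L x)⁻¹ * (c * κ⁻¹) := by group
  obtain ⟨k, hk⟩ : ∃ k, k = c * κ⁻¹ := ⟨_, rfl⟩
  rw [← hk] at hk_mem hk_e hk_x hkL hkc' hkLi
  have hkc : k * c = c * k := by
    calc k * c = k * (L x * c' * (L x)⁻¹) := by rw [← hcc]
      _ = (k * L x) * c' * (L x)⁻¹ := by group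
      _ = L x * (k * c') * (L x)⁻¹ := by rw [hkL]; group
      _ = L x * c' * (k * (L x)⁻¹) := by rw [hkc']; group
      _ = (L x * c' * (L x)⁻¹) * k := by rw [hkLi]; group
      _ = c * k := by rw [← hcc]
  have hLyk : L y = c' * c⁻¹ * k := by
    rw [hLy, hk]; group
  refine ⟨k, ⟨hk_mem, hk_e⟩, hkc, hkc', hLyk, ?_⟩
  -- `L (J y)`
  have h1 := h.equi _ hzG hze y
  rw [hzy] at h1
  have hkz : (D L J x * J) * k * (D L J x * J)⁻¹ = k := by
    have h2 : k * J = J * k := h.comJ k hk_mem hk_e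
    have h3 : k * D L J x = D L J x * k := (h.D_cent hk_mem x).2 hk_x
    have h4 : (D L J x * J) * k = k * (D L J x * J) := by
      calc (D L J x * J) * k = D L J x * (J * k) := by group
        _ = D L J x * (k * J) := by rw [h2]
        _ = (D L J x * k) * J := by group
        _ = (k * D L J x) * J := by rw [h3]
        _ = k * (D L J x * J) := by group
    rw [h4]; group
  rw [← h1, hLyk]
  calc (D L J x * J) * (c' * c⁻¹ * k) * (D L J x * J)⁻¹
      = ((D L J x * J) * c' * (D L J x * J)⁻¹) * ((D L J x * J) * c * (D L J x * J)⁻¹)⁻¹ *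
        ((D L J x * J) * k * (D L J x * J)⁻¹) := by group
    _ = c'⁻¹ * (c⁻¹)⁻¹ * k := by rw [hzc'z, hzcz, hkz]
    _ = c'⁻¹ * c * k := by rw [inv_inv]

/-- the right translation by `c x` -/
theorem m1R (h : AL G L J e) {x : Q} (hJx : J x = x) {c : Perm Q} (hc : c ∈ Inn G e) {n : ℕ}
    (hn : Odd n) (hcn : c ^ n = 1) (hzc : D L J x * c * D L J x = c⁻¹) {c' : Perm Q}
    (hc' : c' = (L x)⁻¹ * c * L x) :
    J * L (c x) * J = (J * L x * J) * (c' * c)⁻¹ := by
  obtain ⟨k1, k2, k3⟩ := h.key_comm hJx hc hn hcn hzc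
  rw [← hc'] at k1 k2 k3
  have hcJ : c * J = J * c := h.comJ c hc.1 hc.2
  have hJJ := h.JJ1
  have hJi := h.Jinv
  have hciJ : c⁻¹ * J = J * c⁻¹ := by
    calc c⁻¹ * J = c⁻¹ * (J * c) * c⁻¹ := by group
      _ = c⁻¹ * (c * J) * c⁻¹ := by rw [hcJ]
      _ = J * c⁻¹ := by group
  have h1 := h.equi c hc.1 hc.2 x
  have h2 : c * (J * L x * J) = (J * L x * J) * c'⁻¹ := by
    rw [← k2, hc']
    calc c * (J * L x * J) = (c * J) * L x * J := by group
      _ = (J * c) * L x * J := by rw [hcJ]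
      _ = J * L x * ((L x)⁻¹ * c * L x) * J := by group
      _ = J * L x * 1 * ((L x)⁻¹ * c * L x) * J := by group
      _ = J * L x * (J * J) * ((L x)⁻¹ * c * L x) * J := by rw [hJJ]
      _ = (J * L x * J) * (J * ((L x)⁻¹ * c * L x) * J) := by group
  rw [← h1]
  calc J * (c * L x * c⁻¹) * J = (J * c) * L x * (c⁻¹ * J) := by group
    _ = (c * J) * L x * (J * c⁻¹) := by rw [hcJ, hciJ]
    _ = (c * (J * L x * J)) * c⁻¹ := by group
    _ = (J * L x * J) * (c'⁻¹ * c⁻¹) := by rw [h2]; group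
    _ = (J * L x * J) * (c' * c)⁻¹ := by rw [k3]; group

/-- `D (c x) = c c D x` -/
theorem m1D (h : AL G L J e) {x : Q} {c : Perm Q} (hc : c ∈ Inn G e)
    (hzc : D L J x * c * D L J x = c⁻¹) : D L J (c x) = c * c * D L J x := by
  have hDD := h.D_sq x
  rw [← h.D_conj hc.1]
  calc c * D L J x * c⁻¹ = c * D L J x * (D L J x * c * D L J x) := by rw [hzc]
    _ = c * (D L J x * D L J x) * c * D L J x := by group
    _ = c * c * D L J x := by rw [hDD, mul_one]

/-- (1) -/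
theorem m1q (h : AL G L J e) {x : Q} (hJx : J x = x) {c : Perm Q} (hc : c ∈ Inn G e) {n : ℕ}
    (hn : Odd n) (hcn : c ^ n = 1) (hzc : D L J x * c * D L J x = c⁻¹) {c' : Perm Q}
    (hc' : c' = (L x)⁻¹ * c * L x) (q : Q) :
    L q * (c * c) * (L q)⁻¹ =
      (J * L x * J) * ((c' * c)⁻¹ * (D L J q * (c' * c) * D L J q)) * (J * L x * J)⁻¹ := by
  have hDD := h.D_sq x
  have hDq := h.D_sq q
  have hcJ : c * J = J * c := h.comJ c hc.1 hc.2
  have hJcx : J (c x) = c x := by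
    show (J * c) x = c x
    rw [← hcJ]
    show c (J x) = c x
    rw [hJx]
  have hR := h.m1R hJx hc hn hcn hzc hc'
  have h1 : c * c = D L J (c x) * D L J x := by
    rw [h.m1D hc hzc, mul_assoc, hDD, mul_one]
  have h2 : ∀ y, J y = y → L q * D L J y * (L q)⁻¹ = (J * L y * J) * D L J q * (J * L y * J)⁻¹ := by
    intro y hy
    have h3 : J * L y * J ∈ G := by
      have h4 := h.memR y
      rw [hy] at h4
      exact h4
    rw [h.D_conj (h.memL q), h.D_conj h3]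
    have h5 := h.R_apply q y
    rw [hy] at h5
    rw [h5]
  rw [h1]
  calc L q * (D L J (c x) * D L J x) * (L q)⁻¹
      = (L q * D L J (c x) * (L q)⁻¹) * (L q * D L J x * (L q)⁻¹) := by group
    _ = ((J * L (c x) * J) * D L J q * (J * L (c x) * J)⁻¹) *
        ((J * L x * J) * D L J q * (J * L x * J)⁻¹) := by rw [h2 _ hJcx, h2 _ hJx]
    _ = (((J * L x * J) * (c' * c)⁻¹) * D L J q * ((J * L x * J) * (c' * c)⁻¹)⁻¹) *
        ((J * L x * J) * D L J q * (J * L x * J)⁻¹) := by rw [hR]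
    _ = _ := by group

/-- `c' ^ n = 1` -/
theorem m1pow {M : Type*} [Group M] {l c c' : M} {n : ℕ} (hcn : c ^ n = 1)
    (hc' : c' = l⁻¹ * c * l) : c' ^ n = 1 := by
  have h1 : c' = l⁻¹ * c * (l⁻¹)⁻¹ := by rw [hc', inv_inv]
  rw [h1, conj_pow, hcn, mul_one, mul_inv_cancel]

/-- (1): `w = c' c` commutes with `D w D` -/
theorem m1c (h : AL G L J e) {x : Q} (hJx : J x = x) {c : Perm Q} (hc : c ∈ Inn G e) {n : ℕ}
    (hn : Odd n) (hcn : c ^ n = 1) (hzc : D L J x * c * D L J x = c⁻¹) {c' : Perm Q}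
    (hc' : c' = (L x)⁻¹ * c * L x) (q : Q) :
    (c' * c) * (D L J q * (c' * c) * D L J q) = (D L J q * (c' * c) * D L J q) * (c' * c) := by
  obtain ⟨k1, k2, k3⟩ := h.key_comm hJx hc hn hcn hzc
  rw [← hc'] at k1 k2 k3
  have hDD := h.D_sq x
  have hDq := h.D_sq q
  have hcc : c * c ∈ Inn G e := (Inn G e).mul_mem hc hc
  have hccn : (c * c) ^ n = 1 := by
    rw [(Commute.refl c).mul_pow, hcn, one_mul]
  have hzcc : D L J x * (c * c) * D L J x = (c * c)⁻¹ := by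
    calc D L J x * (c * c) * D L J x = D L J x * c * 1 * c * D L J x := by group
      _ = D L J x * c * (D L J x * D L J x) * c * D L J x := by rw [hDD]
      _ = (D L J x * c * D L J x) * (D L J x * c * D L J x) := by group
      _ = (c * c)⁻¹ := by rw [hzc]; group
  have hcc' : c' * c' = (L x)⁻¹ * (c * c) * L x := by rw [hc']; group
  have e1 := h.m1q hJx hc hn hcn hzc hc' q
  have e2 := h.m1q hJx hcc hn hccn hzcc hcc' q
  have hw : (c' * c') * (c * c) = (c' * c) * (c' * c) := by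
    calc (c' * c') * (c * c) = c' * (c' * c) * c := by group
      _ = c' * (c * c') * c := by rw [k3]
      _ = (c' * c) * (c' * c) := by group
  rw [hw] at e2
  apply comm_of_two
  obtain ⟨R, hR⟩ : ∃ R, R = J * L x * J := ⟨_, rfl⟩
  obtain ⟨w, hw'⟩ : ∃ w, w = c' * c := ⟨_, rfl⟩
  rw [← hR, ← hw'] at e1
  rw [← hR, ← hw'] at e2
  rw [← hw']
  have h3 : R * ((w⁻¹ * (D L J q * w * D L J q)) * (w⁻¹ * (D L J q * w * D L J q))) * R⁻¹ =
      R * ((w * w)⁻¹ * (D L J q * (w * w) * D L J q)) * R⁻¹ := by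
    calc R * ((w⁻¹ * (D L J q * w * D L J q)) * (w⁻¹ * (D L J q * w * D L J q))) * R⁻¹
        = (R * (w⁻¹ * (D L J q * w * D L J q)) * R⁻¹) *
          (R * (w⁻¹ * (D L J q * w * D L J q)) * R⁻¹) := by group
      _ = (L q * (c * c) * (L q)⁻¹) * (L q * (c * c) * (L q)⁻¹) := by rw [e1]
      _ = L q * (c * c * (c * c)) * (L q)⁻¹ := by group
      _ = _ := e2
  have h4 := mul_left_cancel (mul_right_cancel h3)
  have h5 : D L J q * (w * w) * D L J q = (D L J q * w * D L J q) * (D L J q * w * D L J q) := by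
    calc D L J q * (w * w) * D L J q = D L J q * w * 1 * w * D L J q := by group
      _ = D L J q * w * (D L J q * D L J q) * w * D L J q := by rw [hDq]
      _ = _ := by group
  rw [h4, h5]

/-- (2), with `k` -/
theorem m1s (h : AL G L J e) {c' c k : Perm Q} (hc'G : c' ∈ G) (hkI : k ∈ Inn G e)
    (hcJ : c * J = J * c) (k2 : J * c' * J = c'⁻¹) (k3 : c' * c = c * c')
    (hLJs : L (J (c' e)) = c'⁻¹ * c * k) (q : Q) :
    L q * (c' * c') * (L q)⁻¹ =
      (c' * c) * D L J (k q) * (c' * c)⁻¹ * D L J q := by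
  have hJJ := h.JJ1
  have hkJ : k * J = J * k := h.comJ k hkI.1 hkI.2
  have hDs : D L J (c' e) = c' * c' * J := by
    rw [← h.D_conj hc'G, h.D_e]
    have h1 : J * c'⁻¹ = c' * J := by
      calc J * c'⁻¹ = J * (J * c' * J) := by rw [k2]
        _ = (J * J) * c' * J := by group
        _ = c' * J := by rw [hJJ, one_mul]
    calc c' * J * c'⁻¹ = c' * (J * c'⁻¹) := by group
      _ = c' * c' * J := by rw [h1]; group
  have h1 : c' * c' = D L J (c' e) * J := by
    rw [hDs, mul_assoc, hJJ, mul_one]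
  have hRs : J * L (J (c' e)) * J = (c' * c) * k := by
    rw [hLJs]
    have h2 : J * c'⁻¹ * J = c' := by
      rw [← k2]
      calc J * (J * c' * J) * J = (J * J) * c' * (J * J) := by group
        _ = c' := by rw [hJJ, one_mul, mul_one]
    calc J * (c'⁻¹ * c * k) * J = J * c'⁻¹ * c * (k * J) := by group
      _ = J * c'⁻¹ * (c * J) * k := by rw [hkJ]; group
      _ = (J * c'⁻¹ * J) * c * k := by rw [hcJ]; group
      _ = (c' * c) * k := by rw [h2]
  have h3 : D L J (L q (c' e)) = (c' * c) * D L J (k q) * (c' * c)⁻¹ := by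
    have h4 := h.R_apply q (c' e)
    rw [← h4, hRs]
    have h5 : (c' * c) * k ∈ G := by
      rw [← hRs]; exact h.memR _
    have h6 : c' * c ∈ G := by
      have h7 := G.mul_mem h5 (G.inv_mem hkI.1)
      rw [mul_assoc, mul_inv_cancel, mul_one] at h7
      exact h7
    rw [h.D_conj h6 (k q)]
    rfl
  have h8 : L q * J * (L q)⁻¹ = D L J q := rfl
  rw [h1]
  calc L q * (D L J (c' e) * J) * (L q)⁻¹
      = (L q * D L J (c' e) * (L q)⁻¹) * (L q * J * (L q)⁻¹) := by group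
    _ = D L J (L q (c' e)) * D L J q := by rw [h.D_conj (h.memL q), h8]
    _ = _ := by rw [h3]

/-- (3): the translations by `s = c' e = x \ (c x)` -/
theorem m1 [Finite Q] (h : AL G L J e) {x : Q} (hJx : J x = x) {c : Perm Q} (hc : c ∈ Inn G e)
    {n : ℕ} (hn : Odd n) (hcn : c ^ n = 1) (hzc : D L J x * c * D L J x = c⁻¹) {c' : Perm Q}
    (hc' : c' = (L x)⁻¹ * c * L x) :
    L (c' e) = c' * c⁻¹ ∧ J * L (J (c' e)) * J = c' * c ∧ D L J (c' e) = c' * c' * J ∧
    ∀ q, (c' * c) * (D L J q * (c' * c) * D L J q) =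
      (D L J q * (c' * c) * D L J q) * (c' * c) := by
  obtain ⟨k, hkI, hkc, hkc', hLs, hLJs⟩ := h.m1a hJx hc hn hcn hzc hc'
  obtain ⟨k1, k2, k3⟩ := h.key_comm hJx hc hn hcn hzc
  rw [← hc'] at k1 k2 k3
  have hcJ : c * J = J * c := h.comJ c hc.1 hc.2
  have hJJ := h.JJ1
  have hLG := h.memL x
  have hrG : c' ∈ G := by
    rw [hc']; exact G.mul_mem (G.mul_mem (G.inv_mem hLG) hc.1) hLG
  have hrn : c' ^ n = 1 := m1pow hcn hc'
  have hwn : (c' * c) ^ n = 1 := by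
    have h1 : Commute c' c := k3
    rw [h1.mul_pow, hrn, hcn, one_mul]
  have hciJ : c⁻¹ * J = J * c⁻¹ := by
    calc c⁻¹ * J = c⁻¹ * (J * c) * c⁻¹ := by group
      _ = c⁻¹ * (c * J) * c⁻¹ := by rw [hcJ]
      _ = J * c⁻¹ := by group
  have k2' : J * c'⁻¹ * J = c'⁻¹⁻¹ := by
    rw [inv_inv, ← k2]
    calc J * (J * c' * J) * J = (J * J) * c' * (J * J) := by group
      _ = c' := by rw [hJJ, one_mul, mul_one]
  have k3' : c'⁻¹ * c⁻¹ = c⁻¹ * c'⁻¹ := by rw [← mul_inv_rev, ← mul_inv_rev, k3]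
  have hJs : J (c' e) = c'⁻¹ e := by
    rw [← k2]
    show J (c' e) = J (c' (J e))
    rw [h.Je]
  have hJJs : J (c'⁻¹ e) = c' e := by rw [← hJs, h.JJ]
  have hLJs' : L (J (c'⁻¹ e)) = c'⁻¹⁻¹ * c⁻¹ * k := by rw [hJJs, hLs, inv_inv]
  -- `k = 1`
  have hk : ∀ q, k q = q := by
    intro q
    have i1 := h.m1s hrG hkI hcJ k2 k3 hLJs q
    have i2 := h.m1s (G.inv_mem hrG) hkI hciJ k2' k3' hLJs' q
    have hw' : c'⁻¹ * c⁻¹ = (c' * c)⁻¹ := by rw [mul_inv_rev, k3']
    rw [hw', inv_inv] at i2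
    apply h.D_inj
    apply eq_of_rel hn hwn (h.D_sq q) (h.D_sq (k q)) (h.m1c hJx hc hn hcn hzc hc' q)
      (h.m1c hJx hc hn hcn hzc hc' (k q))
    · rw [← i1, ← i2]; group
    · rw [← i1]
      have h1 : (L q * (c' * c') * (L q)⁻¹) ^ n = L q * (c' * c') ^ n * (L q)⁻¹ := conj_pow
      rw [h1, (Commute.refl c').mul_pow, hrn]
      group
  have hk1 : k = 1 := by
    ext q
    exact hk q
  rw [hk1, mul_one] at hLs
  rw [hk1, mul_one] at hLJs
  refine ⟨hLs, ?_, ?_, h.m1c hJx hc hn hcn hzc hc'⟩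
  · rw [hLJs]
    calc J * (c'⁻¹ * c) * J = J * c'⁻¹ * (c * J) := by group
      _ = (J * c'⁻¹ * J) * c := by rw [hcJ]; group
      _ = c' * c := by rw [k2', inv_inv]
  · rw [← h.D_conj hrG, h.D_e]
    have h1 : J * c'⁻¹ = c' * J := by
      calc J * c'⁻¹ = J * (J * c' * J) := by rw [k2]
        _ = (J * J) * c' * J := by group
        _ = c' * J := by rw [hJJ, one_mul]
    calc c' * J * c'⁻¹ = c' * (J * c'⁻¹) := by group
      _ = c' * c' * J := by rw [h1]; group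

/-- (2) with `k = 1` -/
theorem m1q' [Finite Q] (h : AL G L J e) {x : Q} (hJx : J x = x) {c : Perm Q} (hc : c ∈ Inn G e)
    {n : ℕ} (hn : Odd n) (hcn : c ^ n = 1) (hzc : D L J x * c * D L J x = c⁻¹) {c' : Perm Q}
    (hc' : c' = (L x)⁻¹ * c * L x) (q : Q) :
    L q * (c' * c') * (L q)⁻¹ = (c' * c) * (D L J q * (c' * c)⁻¹ * D L J q) := by
  obtain ⟨h1, h2, h3, h4⟩ := h.m1 hJx hc hn hcn hzc hc'
  obtain ⟨k1, k2, k3⟩ := h.key_comm hJx hc hn hcn hzc
  rw [← hc'] at k1 k2 k3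
  have hcJ : c * J = J * c := h.comJ c hc.1 hc.2
  have hJJ := h.JJ1
  have hLG := h.memL x
  have hrG : c' ∈ G := by
    rw [hc']; exact G.mul_mem (G.mul_mem (G.inv_mem hLG) hc.1) hLG
  have hLJs : L (J (c' e)) = c'⁻¹ * c * 1 := by
    have h5 : L (J (c' e)) = J * (J * L (J (c' e)) * J) * J := (h.JconjJ _).symm
    rw [h5, h2, mul_one]
    calc J * (c' * c) * J = J * c' * (c * J) := by group
      _ = (J * c' * J) * c := by rw [hcJ]; group
      _ = c'⁻¹ * c := by rw [k2]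
  have i1 := h.m1s hrG (Inn G e).one_mem hcJ k2 k3 hLJs q
  rw [i1]
  show c' * c * D L J q * (c' * c)⁻¹ * D L J q = _
  group

end AL

end ALoop
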